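import Pool.Agent.H95.GF.Exact

/-!
# Generic and maximal rank of `S^n V` with respect to `Sub_r(S^n V)` when the ratio `dim V / r` is
bounded and large

Definitions used in the statement: `Pool/Agent/H42/GR/Defs.lean` (`InSub`, `RankLE`,
`ContainsOpen`, `IsGenericRank`).  `V` is the space of linear forms in `m` variables, `S^n V` the
space of forms of degree `n`.
-/

namespace Pool.Agent.Results.MP_742294_ag.SymmetricProportional

open Pool.Agent.H42.GR Pool.Agent.H95.GF MvPolynomial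

/-- Let `n ≥ 3`.  For all `s` and `ε > 0` there is `R` such that for all `r ≥ R` and `m ≥ r` with
`(s - 1 + ε) r^n ≤ m^n`, and such that
(a) `m ≥ 3 * 6^(n-2) * r` and `m^n ≤ (s - ε) r^n`, or
(b) `s = q^n` and `m ≤ q r` for an integer `q`,
the generic rank of `S^n V`, `dim V = m`, with respect to `Sub_r(S^n V)` is `s`, and every form of
degree `n` is a sum of `s` elements of `Sub_r(S^n V)`. -/
theorem result (n : ℕ) (hn : 3 ≤ n) (s : ℕ) (ε : ℝ) (hε : 0 < ε) :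
    ∃ R : ℕ, ∀ m r : ℕ, R ≤ r → r ≤ m →
      ((s : ℝ) - 1 + ε) * (r : ℝ) ^ n ≤ (m : ℝ) ^ n →
      ((3 * 6 ^ (n - 2) * r ≤ m ∧ (m : ℝ) ^ n ≤ (s - ε) * (r : ℝ) ^ n) ∨
        ∃ q : ℕ, q ^ n = s ∧ m ≤ q * r) →
      IsGenericRank (Fin m) n r s ∧
        ∀ T ∈ homogeneousSubmodule (Fin m) ℂ n, RankLE (Fin m) n r s T := by
  obtain ⟨N, rfl⟩ : ∃ N, n = N + 2 := ⟨n - 2, by omega⟩
  obtain ⟨R₁, hR₁⟩ := sym_exact N s (by omega) hε
  have h2 : ∃ R₂ : ℕ, ∀ q : ℕ, q ^ (N + 2) = s → ∀ m r : ℕ, R₂ ≤ r → 1 ≤ r → r ≤ m →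
      ((s : ℝ) - 1 + ε) * (r : ℝ) ^ (N + 2) ≤ (m : ℝ) ^ (N + 2) → m ≤ q * r →
      IsGenericRank (Fin m) (N + 2) r s ∧
        ∀ T ∈ homogeneousSubmodule (Fin m) ℂ (N + 2), RankLE (Fin m) (N + 2) r s T := by
    by_cases hex : ∃ q : ℕ, 1 ≤ q ∧ q ^ (N + 2) = s
    · obtain ⟨q₀, hq₀, hqs₀⟩ := hex
      obtain ⟨r₀, hr₀⟩ := Pool.Agent.H95.GA.window (q := q₀) (z := 0) hn hq₀ hε
      refine ⟨r₀, fun q hq m r hr hr1 hrm hlow hm => ?_⟩
      have hqq : q = q₀ := by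
        have h3 : q ^ (N + 2) = q₀ ^ (N + 2) := by rw [hq, hqs₀]
        exact Nat.pow_left_injective (by omega) h3
      subst hqq
      have h4 : q ^ (N + 2) + (N + 2) * 0 = s := by rw [Nat.mul_zero, Nat.add_zero, hq]
      have h5 := hr₀ r m hr hrm
      rw [h4] at h5
      exact h5 hlow (Or.inr ⟨rfl, hm⟩)
    · refine ⟨0, fun q hq m r hr hr1 hrm hlow hm => ?_⟩
      exfalso
      apply hex
      refine ⟨q, ?_, hq⟩
      by_contra h0
      have h1 : q = 0 := by omega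
      rw [h1, Nat.zero_mul] at hm
      omega
  obtain ⟨R₂, hR₂⟩ := h2
  refine ⟨R₁ + R₂ + 1, fun m r hr hrm hlow hcase => ?_⟩
  rcases hcase with ⟨hm, hup⟩ | ⟨q, hq, hm⟩
  · exact hR₁ m r (by omega) (by simpa using hm) hlow hup
  · exact hR₂ q hq m r (by omega) (by omega) hrm hlow hm

end Pool.Agent.Results.MP_742294_ag.SymmetricProportional
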