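import Pool.Agent.H42.GR.Main

/-!
# Generic rank of `S^n V` with respect to `Sub_r(S^n V)` for `r ≥ (n / (n + 1)) dim V`

Definitions used in the statement: `Pool/Agent/H42/GR/Defs.lean` (`InSub`, `RankLE`,
`ContainsOpen`, `IsGenericRank`).  `V` is the space of linear forms in `m` variables, `S^n V` the
space of forms of degree `n`, and `r = m - c`.
-/

namespace Pool.Agent.Results.MP_742294_ag.SymmetricSmallCodimension

open Pool.Agent.H42.GR MvPolynomial

theorem four_mul_le_two_pow (s : ℕ) (hs : 4 ≤ s) : 4 * s ≤ 2 ^ s := by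
  induction s, hs using Nat.le_induction with
  | base => norm_num
  | succ s hs ih =>
    rw [pow_succ]
    omega

theorem ineq_two (s m : ℕ) (hs : 2 ≤ s) (hm : 2 * (s + 2) ≤ m) :
    s * 2 * (m - 2) < 2 ^ s * (m - s) + 1 := by
  obtain ⟨d, rfl⟩ := Nat.exists_eq_add_of_le hm
  have h1 : 2 * (s + 2) + d - 2 = 2 * s + 2 + d := by omega
  have h2 : 2 * (s + 2) + d - s = s + 4 + d := by omega
  rw [h1, h2]
  rcases Nat.lt_or_ge s 4 with h | h
  · interval_cases s
    · omega
    · omega
  · have h3 := four_mul_le_two_pow s h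
    have h4 : 4 * s * (s + 4 + d) ≤ 2 ^ s * (s + 4 + d) := Nat.mul_le_mul_right _ h3
    nlinarith

/-- Let `n ≥ 3`, `c ≥ 2` and `m ≥ (n + 1) c`, and let `V` be the space of linear forms in `m`
variables.  Every form of degree `n` is a sum of at most `n + 1` elements of
`Sub_{m - c}(S^n V)`, and the generic rank is `n` or `n + 1`; it is `n + 1` if
`n (m - c) < c^(n-1)`, and it is `n` if `n (m - n c) ≥ c^(n-1) + (n - 2) c^(n-2) + c - 1`. -/
theorem result (n c m : ℕ) (hn : 3 ≤ n) (hc : 2 ≤ c) (hm : (n + 1) * c ≤ m) :
    (∀ T ∈ homogeneousSubmodule (Fin m) ℂ n, RankLE (Fin m) n (m - c) (n + 1) T) ∧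
    (IsGenericRank (Fin m) n (m - c) n ∨ IsGenericRank (Fin m) n (m - c) (n + 1)) ∧
    (n * (m - c) < c ^ (n - 1) → IsGenericRank (Fin m) n (m - c) (n + 1)) ∧
    (c ^ (n - 1) + (n - 2) * c ^ (n - 2) + (c - 1) ≤ n * (m - n * c) →
      IsGenericRank (Fin m) n (m - c) n) := by
  classical
  have hcard : Fintype.card (Fin m) = m := Fintype.card_fin m
  -- everything is a sum of `n + 1` elements
  have hall : ∀ T ∈ homogeneousSubmodule (Fin m) ℂ n, RankLE (Fin m) n (m - c) (n + 1) T := by
    intro T hT
    obtain ⟨e⟩ := exists_emb (σ := Fin m) (s := n + 1) (c := c) (by rw [hcard]; exact hm)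
    refine rankLE_all (blk e) (fun j => ?_) (by rw [hcard]; omega) T hT
    rw [card_compl_blk, hcard]
  have hopen1 : ContainsOpen (Fin m) n {T | RankLE (Fin m) n (m - c) (n + 1) T} := by
    refine ⟨1, ⟨0, Submodule.zero_mem _, ?_⟩, fun T hT _ => hall T hT⟩
    rw [map_one]
    exact one_ne_zero
  -- `n - 1` summands do not suffice
  have hlow : ∀ s ≤ n - 1, ¬ ContainsOpen (Fin m) n {T | RankLE (Fin m) n (m - c) s T} := by
    intro s hs hcon
    have hcon' : ContainsOpen (Fin m) n {T | RankLE (Fin m) n (m - 2) (n - 1) T} := by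
      refine containsOpen_mono ?_ hcon
      intro T hT
      have h1 : RankLE (Fin m) n (m - c) (n - 1) T :=
        rankLE_mono hs (by rw [hcard]; omega) hT
      obtain ⟨t, ht, hT'⟩ := h1
      exact ⟨t, fun j => inSub_mono (by omega) (by rw [hcard]; omega) (ht j), hT'⟩
    obtain ⟨s', rfl⟩ : ∃ s', n = s' + 1 := ⟨n - 1, by omega⟩
    have hm2 : 2 * (s' + 2) ≤ m := by
      refine le_trans ?_ hm
      nlinarith
    obtain ⟨e⟩ := exists_emb (σ := Fin m) (s := s') (c := 2) (by rw [hcard]; omega)
    have h2 := count_two (s := s') (by omega) e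
    have h3 := not_containsOpen_of_count e _ h2 (by
      rw [hcard]
      exact ineq_two s' m (by omega) hm2)
    rw [hcard] at h3
    exact h3 hcon'
  have hgen1 : ¬ ContainsOpen (Fin m) n {T | RankLE (Fin m) n (m - c) n T} →
      IsGenericRank (Fin m) n (m - c) (n + 1) := by
    intro h
    refine ⟨hopen1, fun s hs => ?_⟩
    by_contra hlt
    rcases Nat.lt_or_ge s n with h1 | h1
    · exact hlow s (by omega) hs
    · have h2 : s = n := by omega
      rw [h2] at hs
      exact h hs
  have hgen2 : ContainsOpen (Fin m) n {T | RankLE (Fin m) n (m - c) n T} →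
      IsGenericRank (Fin m) n (m - c) n := by
    intro h
    refine ⟨h, fun s hs => ?_⟩
    by_contra hlt
    exact hlow s (by omega) hs
  refine ⟨hall, ?_, ?_, ?_⟩
  · by_cases h : ContainsOpen (Fin m) n {T | RankLE (Fin m) n (m - c) n T}
    · exact Or.inl (hgen2 h)
    · exact Or.inr (hgen1 h)
  · intro hlt
    apply hgen1
    obtain ⟨e⟩ := exists_emb (σ := Fin m) (s := n) (c := c) (by
      rw [hcard]
      refine le_trans ?_ hm
      nlinarith)
    have h2 := count_full (n := n) e
    have h3 := not_containsOpen_of_count e _ h2 (by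
      rw [hcard]
      have h4 : c ^ n = c * c ^ (n - 1) := by
        rw [← pow_succ']
        congr 1
        omega
      rw [h4]
      have h5 : n * c * (m - c) = c * (n * (m - c)) := by ring
      rw [h5]
      exact Nat.mul_lt_mul_of_pos_left hlt (by omega))
    rw [hcard] at h3
    exact h3
  · intro hge
    apply hgen2
    obtain ⟨N, rfl⟩ : ∃ N, n = N + 1 := ⟨n - 1, by omega⟩
    have hN : 2 ≤ N := by omega
    set f := m - (N + 1) * c with hf
    set M := c ^ (N - 1) with hM
    set g := f / c with hg
    have hcM : c ^ (N + 1 - 1) = c * M := by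
      rw [hM, ← pow_succ']
      congr 1
      omega
    have hM' : c ^ (N + 1 - 2) = M := by
      rw [hM]
      congr 1
    rw [hcM, hM'] at hge
    have hge' : c * M + (N - 1) * M + (c - 1) ≤ (N + 1) * f := by
      have : N + 1 - 2 = N - 1 := by omega
      rw [this] at hge
      exact hge
    have hfc : f < c * g + c := by
      have := Nat.lt_mul_div_succ f (show 0 < c by omega)
      rw [hg]
      nlinarith
    have hcg : c * g ≤ f := Nat.mul_div_le f c
    have hNk : N * ((c + N - 1) / N) ≤ c + N - 1 := Nat.mul_div_le _ _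
    have hkN : c ≤ N * ((c + N - 1) / N) := by
      have := Nat.lt_mul_div_succ (c + N - 1) (show 0 < N by omega)
      have h2 : N * ((c + N - 1) / N + 1) = N * ((c + N - 1) / N) + N := by ring
      omega
    have hk1 : 1 ≤ (c + N - 1) / N := by
      rw [Nat.le_div_iff_mul_le (by omega)]
      omega
    have hmle : (N + 1) * c ≤ m := by
      refine le_trans ?_ hm
      nlinarith
    have key : ContainsOpen (Fin m) (N + 1)
        {T | RankLE (Fin m) (N + 1) (Fintype.card (Fin m) - c) (N + 1) T} := by
      refine containsOpen_n (N := N) (c := c) (k := (c + N - 1) / N) (a := M - g) (f := f)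
        (by omega) (by omega) hk1 hkN ?_ ?_ (Nat.sub_le _ _) ?_
      · rw [hcard, hf]
        omega
      · rcases Nat.lt_or_ge g M with hlt | hge2
        · obtain ⟨a, ha⟩ := Nat.exists_eq_add_of_le hlt.le
          have ha' : M - g = a := by omega
          rw [ha']
          have h5 : (c + N - 1) * a ≤ N * f := by
            obtain ⟨K, hK⟩ : ∃ K, K = c + N - 1 := ⟨_, rfl⟩
            have h6 : c * M + (N - 1) * M = K * M := by
              rw [hK, ← Nat.add_mul]
              congr 1
              omega
            rw [h6, ha, Nat.mul_add] at hge'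
            have h7 : c * g ≤ K * g := Nat.mul_le_mul_right _ (by omega)
            have h8 : (N + 1) * f = N * f + f := by ring
            rw [h8] at hge'
            rw [← hK]
            omega
          have h9 : N * ((c + N - 1) / N * a) ≤ N * f := by
            refine le_trans ?_ h5
            rw [← Nat.mul_assoc]
            exact Nat.mul_le_mul_right _ hNk
          exact Nat.le_of_mul_le_mul_left h9 (by omega)
        · have : M - g = 0 := by omega
          rw [this, Nat.mul_zero]
          exact Nat.zero_le _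
      · have h10 : M - (M - g) ≤ g := tsub_tsub_le
        exact (Nat.mul_le_mul_left _ h10).trans hcg
    rw [hcard] at key
    exact key

end Pool.Agent.Results.MP_742294_ag.SymmetricSmallCodimension
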