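import Pool.Agent.H95.GF.Exact

/-!
# Generic and maximal rank of `V_1 ⊗ ... ⊗ V_n` with respect to `Sub_{r_1,...,r_n}` when the
ratios `m_i / r_i` are bounded and large

Definitions used in the statement: `Pool/Agent/H42/TR/Defs.lean` (`Tens`, `pureT`, `InSub`,
`RankLE`, `ContainsOpen`, `IsGenericRank`).  `V_i` is the coordinate space of dimension `m i`.
-/

namespace Pool.Agent.Results.MP_742294_ag.TensorProportional

open Pool.Agent.H42.TR Pool.Agent.H95.GF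

/-- Let `n ≥ 3`.  For all `s` and `ε > 0` there is `R` such that for all dimensions `m_i` and
all `r_i ≥ R`, `r_i ≤ m_i`, with `R r_i ≤ ∏_{j ≠ i} r_j` for all `i`, and with
`(s - 1 + ε) ∏ r_i ≤ ∏ m_i`, and such that
(a) `m_i ≥ 3 * 6^(n-2) * r_i` for all `i` and `∏ m_i ≤ (s - ε) ∏ r_i`, or
(b) `m_i ≤ q_i r_i` for integers `q_i` with `∏ q_i = s`,
the generic rank of `V_1 ⊗ ... ⊗ V_n` with respect to `Sub_{r_1,...,r_n}` is `s`, and every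
tensor is a sum of `s` elements of `Sub_{r_1,...,r_n}`. -/
theorem result (n : ℕ) (hn : 3 ≤ n) (s : ℕ) (ε : ℝ) (hε : 0 < ε) :
    ∃ R : ℕ, ∀ m r : Fin n → ℕ, (∀ i, R ≤ r i) → (∀ i, r i ≤ m i) →
      (∀ i, R * r i ≤ ∏ j ∈ Finset.univ.erase i, r j) →
      ((s : ℝ) - 1 + ε) * ∏ i, (r i : ℝ) ≤ ∏ i, (m i : ℝ) →
      (((∀ i, 3 * 6 ^ (n - 2) * r i ≤ m i) ∧ (∏ i, (m i : ℝ)) ≤ (s - ε) * ∏ i, (r i : ℝ)) ∨
        ∃ q : Fin n → ℕ, ∏ i, q i = s ∧ ∀ i, m i ≤ q i * r i) →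
      IsGenericRank (fun i => Fin (m i)) r s ∧
        ∀ T : Tens (fun i => Fin (m i)), RankLE (fun i => Fin (m i)) r s T := by
  obtain ⟨N, rfl⟩ : ∃ N, n = N + 2 := ⟨n - 2, by omega⟩
  obtain ⟨R₁, hR₁⟩ := tensor_exact N s hε
  obtain ⟨R₂, hR₂⟩ := tensor_integer_unif (N + 2) s hε
  refine ⟨R₁ + R₂ + 1, fun m r hr hrm hbal hlow hcase => ?_⟩
  have hr1 : ∀ i, 1 ≤ r i := fun i => by
    have := hr i
    omega
  have hbal₁ : ∀ i, R₁ * r i ≤ ∏ j ∈ Finset.univ.erase i, r j := fun i =>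
    le_trans (Nat.mul_le_mul_right _ (by omega)) (hbal i)
  have hbal₂ : ∀ i, R₂ * r i ≤ ∏ j ∈ Finset.univ.erase i, r j := fun i =>
    le_trans (Nat.mul_le_mul_right _ (by omega)) (hbal i)
  rcases hcase with ⟨hm, hup⟩ | ⟨q, hq, hm⟩
  · obtain ⟨hall, hgen⟩ := hR₁ m r (fun i => by have := hr i; omega)
      (fun i => by simpa using hm i) hup
    exact ⟨hgen hbal₁ hlow, hall⟩
  · obtain ⟨hall, hgen⟩ := hR₂ m r q hr1 hrm hq hm
    exact ⟨hgen hbal₂ hlow, hall⟩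

end Pool.Agent.Results.MP_742294_ag.TensorProportional
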