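import Pool.Agent.H42.TR.Main

/-!
# Generic rank of `V_1 ⊗ ... ⊗ V_n` with respect to `Sub_{r_1,...,r_n}` for
`r_i ≥ (n / (n + 1)) dim V_i`

Definitions used in the statement: `Pool/Agent/H42/TR/Defs.lean` (`Tens`, `pureT`, `InSub`,
`RankLE`, `ContainsOpen`, `IsGenericRank`).  Here `V_i` is the coordinate space of dimension
`m i`, and `r_i = m i - c i`.
-/

namespace Pool.Agent.Results.MP_742294_ag.TensorSmallCodimension

open Pool.Agent.H42.TR
open Pool.Agent.H42.GR (exists_emb card_compl_blk blk)

theorem ineq_term (N m : ℕ) (hN : 2 ≤ N) (hm : 2 * (N + 2) ≤ m) :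
    N * 2 * (m - 2) < N.factorial * 2 ^ N * (m - N * 2) := by
  obtain ⟨d, rfl⟩ := Nat.exists_eq_add_of_le hm
  obtain ⟨M, rfl⟩ := Nat.exists_eq_add_of_le hN
  have h1 : 2 * (2 + M + 2) + d - 2 = 2 * M + 6 + d := by omega
  have h2 : 2 * (2 + M + 2) + d - (2 + M) * 2 = 4 + d := by omega
  rw [h1, h2]
  have h3 : 2 + M ≤ (2 + M).factorial := Nat.self_le_factorial _
  have h4 : M + 2 ≤ 2 ^ (M + 1) := Nat.lt_two_pow_self
  have h5 : 2 ^ (2 + M) = 2 * 2 ^ (M + 1) := by
    rw [show 2 + M = (M + 1) + 1 by omega, pow_succ]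
    ring
  rw [h5]
  have h6 : 2 * M + 6 + d < (M + 2) * (4 + d) := by nlinarith
  calc (2 + M) * 2 * (2 * M + 6 + d) < (2 + M) * 2 * ((M + 2) * (4 + d)) :=
        Nat.mul_lt_mul_of_pos_left h6 (by omega)
    _ ≤ (2 + M).factorial * 2 * (2 ^ (M + 1) * (4 + d)) :=
        Nat.mul_le_mul (Nat.mul_le_mul_right 2 h3) (Nat.mul_le_mul_right _ h4)
    _ = (2 + M).factorial * (2 * 2 ^ (M + 1)) * (4 + d) := by ring

/-- Let `n ≥ 3`, `c_i ≥ 2` and `m_i ≥ (n + 1) c_i` for all `i`, `r_i = m_i - c_i`.  Every tensor
in `V_1 ⊗ ... ⊗ V_n`, `dim V_i = m_i`, is a sum of at most `n + 1` elements of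
`Sub_{r_1,...,r_n}`, and the generic rank is `n` or `n + 1`; it is `n + 1` if
`∑ c_i (m_i - c_i) < (n - 1)! ∏ c_i`, and it is `n` if for some `i₀`, with `f_i = m_i - n c_i` and
`P = ∏_{l ≠ i₀} c_l`, one has
`(n - 1)! P ≤ f_{i₀} + ∑_{i ≠ i₀} min (c_i ⌊f_i / c_{i₀}⌋, (n - 2)! P)`. -/
theorem result (n : ℕ) (hn : 3 ≤ n) (m c : Fin n → ℕ) (hc : ∀ i, 2 ≤ c i)
    (hm : ∀ i, (n + 1) * c i ≤ m i) :
    (∀ T : Tens (fun i => Fin (m i)),
      RankLE (fun i => Fin (m i)) (fun i => m i - c i) (n + 1) T) ∧
    (IsGenericRank (fun i => Fin (m i)) (fun i => m i - c i) n ∨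
      IsGenericRank (fun i => Fin (m i)) (fun i => m i - c i) (n + 1)) ∧
    (∑ i, c i * (m i - c i) < (n - 1).factorial * ∏ i, c i →
      IsGenericRank (fun i => Fin (m i)) (fun i => m i - c i) (n + 1)) ∧
    ((∃ i₀, (n - 1).factorial * ∏ l ∈ Finset.univ.erase i₀, c l ≤
        (m i₀ - n * c i₀) + ∑ i ∈ Finset.univ.erase i₀,
          min (c i * ((m i - n * c i) / c i₀))
            ((n - 2).factorial * ∏ l ∈ Finset.univ.erase i₀, c l)) →
      IsGenericRank (fun i => Fin (m i)) (fun i => m i - c i) n) := by
  classical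
  have hcard : ∀ i, Fintype.card (Fin (m i)) = m i := fun i => Fintype.card_fin _
  have hrc : (fun i => Fintype.card (Fin (m i)) - c i) = fun i => m i - c i := by
    funext i
    rw [hcard]
  have hr : ∀ i, m i - c i ≤ Fintype.card (Fin (m i)) := fun i => by
    rw [hcard]
    exact Nat.sub_le _ _
  have hmn : ∀ i, n * c i ≤ m i := fun i =>
    le_trans (Nat.mul_le_mul_right _ (Nat.le_succ n)) (hm i)
  -- everything is a sum of `n + 1` elements
  have hall : ∀ T : Tens (fun i => Fin (m i)),
      RankLE (fun i => Fin (m i)) (fun i => m i - c i) (n + 1) T := by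
    intro T
    have he : ∀ i, Nonempty (Fin (n + 1) × Fin (c i) ↪ Fin (m i)) := fun i =>
      exists_emb (σ := Fin (m i)) (s := n + 1) (c := c i) (by rw [hcard]; exact hm i)
    refine rankLE_all (α := fun i => Fin (m i)) (fun i => blk (he i).some) (fun i j => ?_) hr ?_ T
    · rw [card_compl_blk, hcard]
    · intro w hw
      choose f hf using hw
      have hinj : Function.Injective f := by
        intro j j' h
        have h1 := hf j
        rw [h, hf j'] at h1
        exact (Option.some.inj h1).symm
      have := Fintype.card_le_of_injective f hinj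
      rw [Fintype.card_fin, Fintype.card_fin] at this
      omega
  have hopen1 : ContainsOpen (fun i => Fin (m i))
      {T | RankLE (fun i => Fin (m i)) (fun i => m i - c i) (n + 1) T} :=
    ⟨1, one_ne_zero, fun T _ => hall T⟩
  -- `n - 1` summands do not suffice
  have hlow : ∀ s ≤ n - 1, ¬ ContainsOpen (fun i => Fin (m i))
      {T | RankLE (fun i => Fin (m i)) (fun i => m i - c i) s T} := by
    intro s hs hcon
    have hcon' : ContainsOpen (fun i => Fin (m i))
        {T | RankLE (fun i => Fin (m i)) (fun i => m i - 2) (n - 1) T} := by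
      refine containsOpen_mono ?_ hcon
      intro T hT
      have h1 : RankLE (fun i => Fin (m i)) (fun i => m i - c i) (n - 1) T :=
        rankLE_mono hs hr hT
      obtain ⟨t, ht, hT'⟩ := h1
      refine ⟨t, fun j => inSub_mono (fun i => ?_) (fun i => ?_) (ht j), hT'⟩
      · have := hc i
        omega
      · rw [hcard]
        exact Nat.sub_le _ _
    obtain ⟨N, rfl⟩ : ∃ N, n = N + 1 := ⟨n - 1, by omega⟩
    have hm2 : ∀ i, 2 * (N + 2) ≤ m i := by
      intro i
      refine le_trans ?_ (hm i)
      have := hc i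
      nlinarith
    have he : ∀ i, Nonempty (Fin N × Fin 2 ↪ Fin (m i)) := fun i =>
      exists_emb (σ := Fin (m i)) (s := N) (c := 2) (by
        rw [hcard]
        have := hm2 i
        omega)
    have h2 := count_pred (α := fun i => Fin (m i)) (fun i => (he i).some)
    have h3 := not_containsOpen_of_count (α := fun i => Fin (m i)) (c := fun _ => 2)
      (fun i => (he i).some) _ h2 (by
      simp only [hcard]
      rw [Finset.mul_sum]
      exact Finset.sum_lt_sum_of_nonempty Finset.univ_nonempty fun i _ =>
        ineq_term N (m i) (by omega) (hm2 i))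
    simp only [hcard] at h3
    exact h3 hcon'
  have hgen1 : ¬ ContainsOpen (fun i => Fin (m i))
      {T | RankLE (fun i => Fin (m i)) (fun i => m i - c i) n T} →
      IsGenericRank (fun i => Fin (m i)) (fun i => m i - c i) (n + 1) := by
    intro h
    refine ⟨hopen1, fun s hs => ?_⟩
    by_contra hlt
    rcases Nat.lt_or_ge s n with h1 | h1
    · exact hlow s (by omega) hs
    · have h2 : s = n := by omega
      rw [h2] at hs
      exact h hs
  have hgen2 : ContainsOpen (fun i => Fin (m i))
      {T | RankLE (fun i => Fin (m i)) (fun i => m i - c i) n T} →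
      IsGenericRank (fun i => Fin (m i)) (fun i => m i - c i) n := by
    intro h
    refine ⟨h, fun s hs => ?_⟩
    by_contra hlt
    exact hlow s (by omega) hs
  refine ⟨hall, ?_, ?_, ?_⟩
  · by_cases h : ContainsOpen (fun i => Fin (m i))
      {T | RankLE (fun i => Fin (m i)) (fun i => m i - c i) n T}
    · exact Or.inl (hgen2 h)
    · exact Or.inr (hgen1 h)
  · intro hlt
    apply hgen1
    have he : ∀ i, Nonempty (Fin n × Fin (c i) ↪ Fin (m i)) := fun i =>
      exists_emb (σ := Fin (m i)) (s := n) (c := c i) (by rw [hcard]; exact hmn i)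
    have h2 := count_full (α := fun i => Fin (m i)) (fun i => (he i).some)
    have h3 := not_containsOpen_of_count (α := fun i => Fin (m i))
      (fun i => (he i).some) _ h2 (by
      simp only [hcard]
      have h4 : ∑ i, n * c i * (m i - c i) = n * ∑ i, c i * (m i - c i) := by
        rw [Finset.mul_sum]
        exact Finset.sum_congr rfl fun i _ => Nat.mul_assoc _ _ _
      have h5 : n.factorial = n * (n - 1).factorial :=
        (Nat.mul_factorial_pred (by omega)).symm
      rw [h4, h5, Nat.mul_assoc]
      exact Nat.mul_lt_mul_of_pos_left hlt (by omega))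
    simp only [hcard] at h3
    exact h3
  · rintro ⟨i₀, hi₀⟩
    apply hgen2
    set P := ∏ l ∈ Finset.univ.erase i₀, c l with hP
    set u : Fin n → ℕ := fun i =>
      (n - 2).factorial * ∏ l ∈ (Finset.univ.erase i₀).erase i, c l with hu
    set lam : Fin n → ℕ := fun i => min ((m i - n * c i) / c i₀) (u i) with hlam
    have hcu : ∀ i ∈ Finset.univ.erase i₀, c i * u i = (n - 2).factorial * P := by
      intro i hi
      rw [hu, hP, ← Finset.mul_prod_erase (Finset.univ.erase i₀) c hi]
      ring
    have hmin : ∀ i ∈ Finset.univ.erase i₀, c i * lam i =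
        min (c i * ((m i - n * c i) / c i₀)) ((n - 2).factorial * P) := by
      intro i hi
      rw [← hcu i hi, hlam]
      simp only
      rw [Nat.mul_min_mul_left]
    have key : ContainsOpen (fun i => Fin (m i)) {T | RankLE (fun i => Fin (m i))
        (fun i => Fintype.card (Fin (m i)) - c i) n T} := by
      refine containsOpen_n (α := fun i => Fin (m i)) (by omega)
        (fun i => lt_of_lt_of_le Nat.zero_lt_two (hc i)) i₀
        (fun i => m i - n * c i) lam ?_ ?_ ?_ ?_
      · intro i
        rw [hcard]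
        have := hmn i
        omega
      · intro i _
        exact (Nat.mul_le_mul_left _ (Nat.min_le_left _ _)).trans (Nat.mul_div_le _ _)
      · intro i _
        exact Nat.min_le_right _ _
      · have h1 : ∑ i ∈ Finset.univ.erase i₀, c i * (u i - lam i) +
            ∑ i ∈ Finset.univ.erase i₀, c i * lam i = (n - 1).factorial * P := by
          rw [← Finset.sum_add_distrib]
          have h2 : ∀ i ∈ Finset.univ.erase i₀, c i * (u i - lam i) + c i * lam i =
              (n - 2).factorial * P := by
            intro i hi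
            rw [← Nat.mul_add, Nat.sub_add_cancel (Nat.min_le_right _ _), hcu i hi]
          rw [Finset.sum_congr rfl h2, Finset.sum_const,
            Finset.card_erase_of_mem (Finset.mem_univ _), Finset.card_univ, Fintype.card_fin,
            smul_eq_mul, ← Nat.mul_assoc]
          congr 1
          have := Nat.mul_factorial_pred (n := n - 1) (by omega)
          rw [show n - 1 - 1 = n - 2 by omega] at this
          exact this
        rw [Finset.sum_congr rfl hmin] at h1
        change ∑ i ∈ Finset.univ.erase i₀, c i * (u i - lam i) ≤ m i₀ - n * c i₀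
        omega
    rw [hrc] at key
    exact key

end Pool.Agent.Results.MP_742294_ag.TensorSmallCodimension
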